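import Pool.Agent.H36.LR.Gauss
import Pool.Graph.R_pool_sql_team_seeded_1acbe0a2.Y424.PP.Main

/-!
# Nearly pure pairs from vectors of small norm
-/

set_option autoImplicit false
set_option linter.unusedSectionVars false

namespace Pool.Agent.H36.LR

open Finset
open scoped RealInnerProductSpace
open Pool.Agent.Y424.LR (bv)

variable {V : Type} [Fintype V]

/-- iteration of the rounding step -/
theorem iter (good dom : V → V → Prop) (f : V → V → ℝ) (g b : ℝ)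
    (hg : 0 ≤ g) (hb : 0 ≤ b) (h1 : ∀ u v, dom u v → good u v → g ≤ f u v)
    (h2 : ∀ u v, dom u v → ¬ good u v → f u v ≤ b)
    (hround : ∀ (c : V → V → ℝ) (a a' : V → ℝ), (∀ u, 0 ≤ a u ∧ a u ≤ 1) →
      (∀ u, 0 ≤ a' u ∧ a' u ≤ 1) → ∃ d d' : V → ℝ, (∀ u, 0 ≤ d u ∧ d u ≤ 1) ∧
      (∀ u, 0 ≤ d' u ∧ d' u ≤ 1) ∧
      ∑ u, ∑ v, c u v * (a u * a' v) * f u v ≤ ∑ u, ∑ v, c u v * (d u * d' v)) :
    open Classical in
    ∀ (k : ℕ) (α β : ℝ), 0 ≤ α → 0 ≤ β → ∃ a a' : V → ℝ, (∀ u, 0 ≤ a u ∧ a u ≤ 1) ∧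
      (∀ u, 0 ≤ a' u ∧ a' u ≤ 1) ∧
      ∑ u, ∑ v, (if dom u v then (if good u v then α * g ^ k else - (β * b ^ k)) else 0) ≤
      ∑ u, ∑ v, (if dom u v then (if good u v then α else -β) else 0) * (a u * a' v) := by
  classical
  intro k
  induction k with
  | zero =>
    intro α β _ _
    refine ⟨fun _ => 1, fun _ => 1, fun _ => ⟨zero_le_one, le_refl _⟩,
      fun _ => ⟨zero_le_one, le_refl _⟩, le_of_eq ?_⟩
    simp
  | succ k ih =>
    intro α β hα hβ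
    obtain ⟨a, a', ha, ha', h3⟩ := ih (α * g) (β * b) (mul_nonneg hα hg) (mul_nonneg hβ hb)
    obtain ⟨d, d', hd, hd', h4⟩ := hround
      (fun u v => if dom u v then (if good u v then α else -β) else 0) a a' ha ha'
    refine ⟨d, d', hd, hd', le_trans (le_trans (le_of_eq ?_) (h3.trans ?_)) h4⟩
    · refine sum_congr rfl fun u _ => sum_congr rfl fun v _ => ?_
      split_ifs <;> ring
    · refine sum_le_sum fun u _ => sum_le_sum fun v _ => ?_
      have hab : 0 ≤ a u * a' v := mul_nonneg (ha u).1 (ha' v).1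
      by_cases hd : dom u v
      · by_cases hgd : good u v
        · simp only [hd, hgd, if_true]
          have := mul_le_mul_of_nonneg_left (h1 u v hd hgd) (mul_nonneg hα hab)
          nlinarith
        · simp only [hd, hgd, if_true, if_false]
          have := mul_le_mul_of_nonneg_left (h2 u v hd hgd) (mul_nonneg hβ hab)
          nlinarith
      · simp only [hd, if_false]
        simp

/-- rounding to sets -/
theorem to_sets (c : V → V → ℝ) (a a' : V → ℝ) (ha : ∀ u, 0 ≤ a u ∧ a u ≤ 1)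
    (ha' : ∀ u, 0 ≤ a' u ∧ a' u ≤ 1) : ∃ X Y : Finset V,
    ∑ u, ∑ v, c u v * (a u * a' v) ≤ ∑ u ∈ X, ∑ v ∈ Y, c u v := by
  classical
  have key : ∀ (g a : V → ℝ), (∀ u, 0 ≤ a u ∧ a u ≤ 1) →
      ∑ u, a u * g u ≤ ∑ u ∈ univ.filter (fun u => 0 < g u), g u := by
    intro g a ha
    rw [sum_filter]
    refine sum_le_sum fun u _ => ?_
    by_cases h : 0 < g u
    · rw [if_pos h]
      exact mul_le_of_le_one_left h.le (ha u).2
    · rw [if_neg h]
      exact mul_nonpos_of_nonneg_of_nonpos (ha u).1 (not_lt.1 h)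
  obtain ⟨X, hX⟩ : ∃ X, X = univ.filter (fun u => 0 < ∑ v, c u v * a' v) := ⟨_, rfl⟩
  have h1 : ∑ u, ∑ v, c u v * (a u * a' v) ≤ ∑ u ∈ X, ∑ v, c u v * a' v := by
    rw [hX]
    refine le_trans (le_of_eq ?_) (key (fun u => ∑ v, c u v * a' v) a ha)
    refine sum_congr rfl fun u _ => ?_
    rw [mul_sum]
    exact sum_congr rfl fun v _ => by ring
  obtain ⟨Y, hY⟩ : ∃ Y, Y = univ.filter (fun v => 0 < ∑ u ∈ X, c u v) := ⟨_, rfl⟩
  refine ⟨X, Y, h1.trans ?_⟩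
  have h2 := key (fun v => ∑ u ∈ X, c u v) a' ha'
  rw [← hY] at h2
  refine le_trans (le_of_eq ?_) (h2.trans (le_of_eq sum_comm))
  rw [sum_comm]
  refine sum_congr rfl fun v _ => ?_
  rw [mul_sum]
  exact sum_congr rfl fun u _ => by ring

open Classical in
theorem dsum (X Y B : Finset V) (P : V → V → Prop) (x y : ℝ) :
    ∑ u ∈ X, ∑ v ∈ Y, (if u ∈ B ∧ v ∈ B then (if P u v then x else y) else 0) =
      x * (((X ∩ B) ×ˢ (Y ∩ B)).filter (fun p => P p.1 p.2)).card +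
      y * (((X ∩ B) ×ˢ (Y ∩ B)).filter (fun p => ¬ P p.1 p.2)).card := by
  have e1 : ∑ u ∈ X, ∑ v ∈ Y, (if u ∈ B ∧ v ∈ B then (if P u v then x else y) else 0) =
      ∑ u ∈ X ∩ B, ∑ v ∈ Y ∩ B, (if P u v then x else y) := by
    rw [← sum_filter_add_sum_filter_not X (fun u => u ∈ B), filter_mem_eq_inter]
    rw [sum_eq_zero (s := X.filter (fun u => ¬ u ∈ B)), add_zero]
    · refine sum_congr rfl fun u hu => ?_
      have hu' := (mem_inter.1 hu).2
      rw [← filter_mem_eq_inter, sum_filter]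
      refine sum_congr rfl fun v _ => ?_
      simp only [hu', true_and]
    · intro u hu
      refine sum_eq_zero fun v _ => ?_
      rw [if_neg]
      exact fun h => (mem_filter.1 hu).2 h.1
  rw [e1, ← sum_product', sum_ite, sum_const, sum_const, nsmul_eq_mul, nsmul_eq_mul]
  ring

theorem pow_ge {N : ℕ} (hN : 1 ≤ N) (l : ℕ) : (2 : ℝ) ^ l ≤ (1 + 1 / (N : ℝ)) ^ (N * l) := by
  have hN' : (0 : ℝ) < N := by exact_mod_cast hN
  rw [pow_mul]
  refine pow_le_pow_left₀ (by norm_num) ?_ l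
  have h := one_add_mul_le_pow (a := 1 / (N : ℝ)) (by
    have : 0 ≤ 1 / (N : ℝ) := by positivity
    linarith) N
  rw [mul_one_div_cancel hN'.ne'] at h
  linarith

theorem pow_le {N : ℕ} (hN : 1 ≤ N) (l : ℕ) : (1 - 1 / (N : ℝ)) ^ (N * l) * 2 ^ l ≤ 1 := by
  have hN' : (1 : ℝ) ≤ N := by exact_mod_cast hN
  have h0 : 0 ≤ 1 - 1 / (N : ℝ) := by
    rw [sub_nonneg, div_le_one (by linarith)]
    exact hN'
  have h1 : (1 - 1 / (N : ℝ)) ^ (N * l) * 2 ^ l ≤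
      (1 - 1 / (N : ℝ)) ^ (N * l) * (1 + 1 / (N : ℝ)) ^ (N * l) :=
    mul_le_mul_of_nonneg_left (pow_ge hN l) (pow_nonneg h0 _)
  refine h1.trans ?_
  rw [← mul_pow]
  refine pow_le_one₀ (mul_nonneg h0 (by positivity)) ?_
  nlinarith [sq_nonneg (1 / (N : ℝ))]

variable {E : Type} [NormedAddCommGroup E] [InnerProductSpace ℝ E] [FiniteDimensional ℝ E]
  [MeasurableSpace E] [BorelSpace E]

theorem exp_sinh {h : ℕ} (hh : 1 ≤ h) {s t : E} (hs : ‖s‖ ^ 2 ≤ 1) (ht : ‖t‖ ^ 2 ≤ 1)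
    (hst : ⟪s, t⟫ = 1 / (h : ℝ)) :
    1 / ((3 * h : ℕ) : ℝ) ≤ Real.exp (-(‖s‖ ^ 2 + ‖t‖ ^ 2) / 2) * Real.sinh ⟪s, t⟫ := by
  have hh' : (1 : ℝ) ≤ h := by exact_mod_cast hh
  have e1 : (1 / 3 : ℝ) ≤ Real.exp (-(‖s‖ ^ 2 + ‖t‖ ^ 2) / 2) := by
    have h1 : (-1 : ℝ) ≤ -(‖s‖ ^ 2 + ‖t‖ ^ 2) / 2 := by linarith
    refine le_trans ?_ (Real.exp_le_exp.2 h1)
    rw [Real.exp_neg, one_div]
    exact inv_anti₀ (Real.exp_pos 1) (Real.exp_one_lt_d9.le.trans (by norm_num))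
  have e2 : 1 / (h : ℝ) ≤ Real.sinh ⟪s, t⟫ := by
    rw [hst]
    exact Real.self_le_sinh_iff.2 (by positivity)
  have e3 : 1 / ((3 * h : ℕ) : ℝ) = 1 / 3 * (1 / (h : ℝ)) := by
    push_cast
    field_simp
  rw [e3]
  exact mul_le_mul e1 e2 (by positivity) (Real.exp_pos _).le

theorem amp (F : V → V → Bool) (z w : V → E) (B : Finset V) {h K l : ℕ}
    (hh : 1 ≤ h) (hK : 1 ≤ K) (hl : 2 * K ≤ 2 ^ l)
    (hz : ∀ u ∈ B, ‖z u‖ ^ 2 ≤ h) (hw : ∀ u ∈ B, ‖w u‖ ^ 2 ≤ h)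
    (hin : ∀ u ∈ B, ∀ v ∈ B, ⟪z u, w v⟫ = bv (F u v)) :
    ∃ X ⊆ B, ∃ Y ⊆ B, B.card ≤ 4 ^ (3 * h * l + 1) * X.card ∧
      B.card ≤ 4 ^ (3 * h * l + 1) * Y.card ∧
      ∃ b, K * ((X ×ˢ Y).filter (fun p => F p.1 p.2 ≠ b)).card ≤ X.card * Y.card := by
  classical
  have hh' : (1 : ℝ) ≤ h := by exact_mod_cast hh
  have hh0 : (0 : ℝ) < h := by linarith
  -- scaled vectors
  obtain ⟨s, hs⟩ : ∃ s, s = 1 / Real.sqrt h := ⟨_, rfl⟩
  have hs2 : s ^ 2 = 1 / h := by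
    rw [hs, div_pow, one_pow, Real.sq_sqrt hh0.le]
  have hz' : ∀ u ∈ B, ‖s • z u‖ ^ 2 ≤ 1 := by
    intro u hu
    rw [norm_smul, mul_pow, Real.norm_eq_abs, sq_abs, hs2, one_div, inv_mul_le_iff₀ hh0, mul_one]
    exact hz u hu
  have hw' : ∀ u ∈ B, ‖s • w u‖ ^ 2 ≤ 1 := by
    intro u hu
    rw [norm_smul, mul_pow, Real.norm_eq_abs, sq_abs, hs2, one_div, inv_mul_le_iff₀ hh0, mul_one]
    exact hw u hu
  have hin' : ∀ u ∈ B, ∀ v ∈ B, ⟪s • z u, s • w v⟫ = bv (F u v) / h := by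
    intro u hu v hv
    rw [real_inner_smul_left, real_inner_smul_right, hin u hu v hv, ← mul_assoc, ← sq, hs2]
    ring
  -- general form of the conclusion
  have key : ∀ (β : Bool) (σ g b : ℝ), |σ| ≤ 1 → 0 ≤ g → 0 ≤ b →
      (∀ u ∈ B, ∀ v ∈ B, F u v = β → g ≤ (1 + σ * (Real.exp (-(‖s • z u‖ ^ 2 + ‖s • w v‖ ^ 2) / 2) *
        Real.sinh ⟪s • z u, s • w v⟫)) / 4) →
      (∀ u ∈ B, ∀ v ∈ B, F u v ≠ β → (1 + σ * (Real.exp (-(‖s • z u‖ ^ 2 + ‖s • w v‖ ^ 2) / 2) *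
        Real.sinh ⟪s • z u, s • w v⟫)) / 4 ≤ b) →
      (∀ k, k = 3 * h * l → (B.card : ℝ) ^ 2 ≤ 4 ^ (k + 1) *
        (g ^ k * ((B ×ˢ B).filter (fun p => F p.1 p.2 = β)).card -
          K * b ^ k * ((B ×ˢ B).filter (fun p => F p.1 p.2 ≠ β)).card)) →
      ∃ X ⊆ B, ∃ Y ⊆ B, B.card ≤ 4 ^ (3 * h * l + 1) * X.card ∧
      B.card ≤ 4 ^ (3 * h * l + 1) * Y.card ∧
      ∃ b, K * ((X ×ˢ Y).filter (fun p => F p.1 p.2 ≠ b)).card ≤ X.card * Y.card := by
    intro β σ g b hσ hg hb h1 h2 h3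
    obtain ⟨k, hk⟩ : ∃ k, k = 3 * h * l := ⟨_, rfl⟩
    rw [← hk]
    specialize h3 k hk
    obtain ⟨a, a', ha, ha', h4⟩ := iter (fun u v => F u v = β) (fun u v => u ∈ B ∧ v ∈ B)
      (fun u v => (1 + σ * (Real.exp (-(‖s • z u‖ ^ 2 + ‖s • w v‖ ^ 2) / 2) *
        Real.sinh ⟪s • z u, s • w v⟫)) / 4) g b hg hb
      (fun u v huv hgd => h1 u huv.1 v huv.2 hgd) (fun u v huv hgd => h2 u huv.1 v huv.2 hgd)
      (fun c a a' ha ha' => round c (fun u => s • z u) (fun v => s • w v) σ hσ a a' ha ha')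
      k 1 K zero_le_one (Nat.cast_nonneg K)
    obtain ⟨X, Y, h5⟩ := to_sets _ a a' ha ha'
    have h6 := h4.trans h5
    have e1 := dsum (univ : Finset V) univ B (fun u v => F u v = β) (1 * g ^ k) (-(K * b ^ k))
    have e2 := dsum X Y B (fun u v => F u v = β) 1 (-(K : ℝ))
    simp only [univ_inter] at e1
    obtain ⟨X', hX'⟩ : ∃ X', X' = X ∩ B := ⟨_, rfl⟩
    obtain ⟨Y', hY'⟩ : ∃ Y', Y' = Y ∩ B := ⟨_, rfl⟩
    rw [← hX', ← hY'] at e2
    have hX'' : X' ⊆ B := hX' ▸ inter_subset_right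
    have hY'' : Y' ⊆ B := hY' ▸ inter_subset_right
    obtain ⟨G, hG⟩ : ∃ G, G = ((X' ×ˢ Y').filter (fun p => F p.1 p.2 = β)).card := ⟨_, rfl⟩
    obtain ⟨Bd, hBd⟩ : ∃ Bd, Bd = ((X' ×ˢ Y').filter (fun p => F p.1 p.2 ≠ β)).card := ⟨_, rfl⟩
    have e3 : (B.card : ℝ) ^ 2 ≤ 4 ^ (k + 1) * ((G : ℝ) - K * Bd) := by
      refine h3.trans (mul_le_mul_of_nonneg_left ?_ (by positivity))
      have e4 : g ^ k * ((B ×ˢ B).filter (fun p => F p.1 p.2 = β)).card -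
          K * b ^ k * ((B ×ˢ B).filter (fun p => F p.1 p.2 ≠ β)).card =
          1 * g ^ k * ((B ×ˢ B).filter (fun p => F p.1 p.2 = β)).card + -(K * b ^ k) *
          ((B ×ˢ B).filter (fun p => ¬ F p.1 p.2 = β)).card := by
        ring
      have e5 : (G : ℝ) - K * Bd = 1 * (((X' ×ˢ Y').filter (fun p => F p.1 p.2 = β)).card : ℝ) +
          -(K : ℝ) * ((X' ×ˢ Y').filter (fun p => ¬ F p.1 p.2 = β)).card := by
        rw [hG, hBd]; ring
      rw [e4, e5]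
      refine le_trans (le_of_eq ?_) (h6.trans (le_of_eq ?_))
      · convert e1.symm
      · convert e2
    have hGB : G + Bd = X'.card * Y'.card := by
      rw [hG, hBd, ← card_product]
      exact card_filter_add_card_filter_not _
    have hpow : (0 : ℝ) < 4 ^ (k + 1) := by positivity
    have e6 : 0 ≤ (G : ℝ) - K * Bd := by
      by_contra hneg
      have : 4 ^ (k + 1) * ((G : ℝ) - K * Bd) < 0 :=
        mul_neg_of_pos_of_neg hpow (not_le.1 hneg)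
      have h7 := sq_nonneg (B.card : ℝ)
      linarith
    have hGB' : (G : ℝ) + Bd = X'.card * Y'.card := by exact_mod_cast hGB
    have hKr : (0 : ℝ) ≤ K * Bd := by positivity
    have e7 : (B.card : ℝ) ^ 2 ≤ 4 ^ (k + 1) * (X'.card * Y'.card) := by
      refine e3.trans (mul_le_mul_of_nonneg_left ?_ hpow.le)
      have : (0 : ℝ) ≤ Bd := Nat.cast_nonneg _
      linarith
    have e7' : B.card * B.card ≤ 4 ^ (k + 1) * (X'.card * Y'.card) := by
      rw [← sq]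
      exact_mod_cast e7
    refine ⟨X', hX'', Y', hY'', ?_, ?_, β, ?_⟩
    · rcases Nat.eq_zero_or_pos B.card with h0 | h0
      · rw [h0]; exact Nat.zero_le _
      · refine Nat.le_of_mul_le_mul_right (c := B.card) ?_ h0
        calc B.card * B.card ≤ 4 ^ (k + 1) * (X'.card * Y'.card) := e7'
          _ ≤ 4 ^ (k + 1) * (X'.card * B.card) :=
            Nat.mul_le_mul_left _ (Nat.mul_le_mul_left _ (card_le_card hY''))
          _ = 4 ^ (k + 1) * X'.card * B.card := by ring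
    · rcases Nat.eq_zero_or_pos B.card with h0 | h0
      · rw [h0]; exact Nat.zero_le _
      · refine Nat.le_of_mul_le_mul_right (c := B.card) ?_ h0
        calc B.card * B.card ≤ 4 ^ (k + 1) * (X'.card * Y'.card) := e7'
          _ ≤ 4 ^ (k + 1) * (B.card * Y'.card) :=
            Nat.mul_le_mul_left _ (Nat.mul_le_mul_right _ (card_le_card hX''))
          _ = 4 ^ (k + 1) * Y'.card * B.card := by ring
    · rw [← hBd, ← hGB]
      have e8 : (K : ℝ) * Bd ≤ G := by linarith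
      have e9 : K * Bd ≤ G := by exact_mod_cast e8
      omega
  -- the two cases
  have hp1 : ∀ u ∈ B, ∀ v ∈ B, F u v = true → 1 / ((3 * h : ℕ) : ℝ) ≤
      Real.exp (-(‖s • z u‖ ^ 2 + ‖s • w v‖ ^ 2) / 2) * Real.sinh ⟪s • z u, s • w v⟫ := by
    intro u hu v hv huv
    refine exp_sinh hh (hz' u hu) (hw' v hv) ?_
    rw [hin' u hu v hv, huv]
    simp [bv]
  have hp0 : ∀ u ∈ B, ∀ v ∈ B, F u v = false →
      Real.exp (-(‖s • z u‖ ^ 2 + ‖s • w v‖ ^ 2) / 2) * Real.sinh ⟪s • z u, s • w v⟫ = 0 := by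
    intro u hu v hv huv
    rw [hin' u hu v hv, huv]
    simp [bv]
  obtain ⟨N, hN⟩ : ∃ N, N = 3 * h := ⟨_, rfl⟩
  have hN1 : 1 ≤ N := by omega
  have hN1' : (1 : ℝ) ≤ N := by exact_mod_cast hN1
  have hl' : (2 : ℝ) * K ≤ 2 ^ l := by exact_mod_cast hl
  have hK0 : (1 : ℝ) ≤ K := by exact_mod_cast hK
  have hdelta : 0 ≤ 1 - 1 / (N : ℝ) := by
    rw [sub_nonneg, div_le_one (by linarith)]
    exact hN1'
  rw [← hN] at hp1
  obtain ⟨D, hD⟩ : ∃ D, D = ((B ×ˢ B).filter (fun p => F p.1 p.2 = true)).card := ⟨_, rfl⟩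
  obtain ⟨Z, hZ⟩ : ∃ Z, Z = ((B ×ˢ B).filter (fun p => F p.1 p.2 = false)).card := ⟨_, rfl⟩
  have eD : ((B ×ˢ B).filter (fun p => F p.1 p.2 ≠ false)).card = D := by
    rw [hD]
    congr 1
    refine filter_congr fun p _ => ?_
    simp
  have eZ : ((B ×ˢ B).filter (fun p => F p.1 p.2 ≠ true)).card = Z := by
    rw [hZ]
    congr 1
    refine filter_congr fun p _ => ?_
    simp
  have hDZ : D + Z = B.card * B.card := by
    rw [hD, ← eZ, ← card_product]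
    exact card_filter_add_card_filter_not _
  have hDZ' : (D : ℝ) + Z = B.card ^ 2 := by
    rw [sq]
    exact_mod_cast hDZ
  have hD0 : (0 : ℝ) ≤ D := Nat.cast_nonneg _
  have hZ0 : (0 : ℝ) ≤ Z := Nat.cast_nonneg _
  rcases le_total Z D with hc | hc
  · have hc' : (Z : ℝ) ≤ D := by exact_mod_cast hc
    refine key true 1 ((1 + 1 / N) / 4) (1 / 4) (by simp) (by positivity) (by norm_num) ?_ ?_ ?_
    · intro u hu v hv huv
      have := hp1 u hu v hv huv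
      linarith
    · intro u hu v hv huv
      rw [hp0 u hu v hv (by simpa using huv)]
      norm_num
    · intro k hk
      rw [← hD, eZ]
      have hk' : k = N * l := by rw [hk, hN]
      have h1 := pow_ge hN1 l
      rw [← hk'] at h1
      have h2 : ((1 + 1 / (N : ℝ)) / 4) ^ k = (1 + 1 / (N : ℝ)) ^ k * (1 / 4) ^ k := by
        rw [div_eq_mul_one_div, mul_pow]
      have h3 : (4 : ℝ) ^ (k + 1) * (1 / 4) ^ k = 4 := by
        rw [pow_succ, mul_right_comm, ← mul_pow]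
        norm_num
      have h4 : (4 : ℝ) ^ (k + 1) * (((1 + 1 / (N : ℝ)) / 4) ^ k * D - K * (1 / 4) ^ k * Z) =
          4 * ((1 + 1 / (N : ℝ)) ^ k * D - K * Z) := by
        rw [h2]
        calc _ = ((4 : ℝ) ^ (k + 1) * (1 / 4) ^ k) * ((1 + 1 / (N : ℝ)) ^ k * D - K * Z) := by ring
          _ = _ := by rw [h3]
      rw [h4, ← hDZ']
      have h5 : (2 : ℝ) * K * D ≤ (1 + 1 / (N : ℝ)) ^ k * D :=
        mul_le_mul_of_nonneg_right (hl'.trans h1) hD0
      have h6 : (K : ℝ) * Z ≤ K * D := mul_le_mul_of_nonneg_left hc' (by linarith)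
      have h7 : (1 : ℝ) * D ≤ K * D := mul_le_mul_of_nonneg_right hK0 hD0
      nlinarith
  · have hc' : (D : ℝ) ≤ Z := by exact_mod_cast hc
    refine key false (-1) (1 / 4) ((1 - 1 / N) / 4) (by simp) (by norm_num)
      (div_nonneg hdelta (by norm_num)) ?_ ?_ ?_
    · intro u hu v hv huv
      rw [hp0 u hu v hv huv]
      norm_num
    · intro u hu v hv huv
      have := hp1 u hu v hv (by simpa using huv)
      linarith
    · intro k hk
      rw [← hZ, eD]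
      have hk' : k = N * l := by rw [hk, hN]
      have h1 := pow_le hN1 l
      rw [← hk'] at h1
      have h2 : ((1 - 1 / (N : ℝ)) / 4) ^ k = (1 - 1 / (N : ℝ)) ^ k * (1 / 4) ^ k := by
        rw [div_eq_mul_one_div, mul_pow]
      have h3 : (4 : ℝ) ^ (k + 1) * (1 / 4) ^ k = 4 := by
        rw [pow_succ, mul_right_comm, ← mul_pow]
        norm_num
      have h4 : (4 : ℝ) ^ (k + 1) * ((1 / 4) ^ k * Z - K * ((1 - 1 / (N : ℝ)) / 4) ^ k * D) =
          4 * (Z - K * (1 - 1 / (N : ℝ)) ^ k * D) := by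
        rw [h2]
        calc _ = ((4 : ℝ) ^ (k + 1) * (1 / 4) ^ k) * (Z - K * (1 - 1 / (N : ℝ)) ^ k * D) := by ring
          _ = _ := by rw [h3]
      rw [h4, ← hDZ']
      have hp : 0 ≤ (1 - 1 / (N : ℝ)) ^ k := pow_nonneg hdelta _
      have h5 : 2 * K * (1 - 1 / (N : ℝ)) ^ k ≤ 1 := by
        refine le_trans ?_ h1
        rw [mul_comm]
        exact mul_le_mul_of_nonneg_left hl' hp
      have h6 : 2 * K * (1 - 1 / (N : ℝ)) ^ k * D ≤ 1 * D := mul_le_mul_of_nonneg_right h5 hD0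
      nlinarith

end Pool.Agent.H36.LR
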