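import Pool.Agent.H36.LR.Few
import Pool.Agent.H36.LR.Amp

/-!
# Pure pairs from few large eigenvalues
-/

set_option autoImplicit false

namespace Pool.Agent.H36.LR

open Finset
open scoped RealInnerProductSpace
open Pool.Agent.Y424.LR (bv mat)

variable {V : Type} [Fintype V]

/-- the constant -/
def cst (l q : ℕ) : ℕ := 4 * 4 ^ (3 * (4 * (Nat.sqrt q + 2)) * l + 1)

theorem rank_sub_le (M : Matrix V V ℝ) (A : Finset V) :
    (M.submatrix (Subtype.val : A → V) (Subtype.val : A → V)).rank ≤ M.rank :=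
  Matrix.rank_submatrix_le M _ _

theorem core {F : V → V → Bool} (hsym : ∀ x y, F x y = F y x) (hirr : ∀ x, F x x = false)
    {σ : ℝ} (hσ : σ = 1 ∨ σ = -1) {μ : ℝ} (hμ : 0 ≤ μ) {A : Finset V} {q l : ℕ}
    (hq : Few (σ • mat F) μ A q) (hl : 8 * ((mat F).rank + 1) ≤ 2 ^ l)
    (hA : μ * (mat F).rank ≤ A.card) :
    ∃ X ⊆ A, ∃ Y ⊆ A, A.card ≤ cst l q * X.card ∧ A.card ≤ cst l q * Y.card ∧
      ∃ b, ∀ x ∈ X, ∀ y ∈ Y, F x y = b := by
  classical
  obtain ⟨N, hN⟩ : ∃ N, N = (σ • mat F).submatrix (Subtype.val : A → V) Subtype.val := ⟨_, rfl⟩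
  have hNval : ∀ u v : A, N u v = σ * bv (F u v) := by
    intro u v
    rw [hN]
    rfl
  have hherm : N.IsHermitian := by
    ext u v
    rw [Matrix.conjTranspose_apply, hNval, hNval, hsym v u]
    rfl
  have htr : N.trace = 0 := by
    unfold Matrix.trace
    refine sum_eq_zero fun u _ => ?_
    rw [Matrix.diag_apply, hNval, hirr]
    simp [bv]
  have habs : ∀ u v, |N u v| ≤ 1 := by
    intro u v
    rw [hNval]
    rcases hσ with h | h <;> rw [h] <;> cases F u v <;> simp [bv]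
  have hrank : N.rank ≤ (mat F).rank := by
    rw [hN]
    refine (rank_sub_le _ _).trans ?_
    have : σ • mat F = (σ • (1 : Matrix V V ℝ)) * mat F := by
      rw [smul_mul_assoc, one_mul]
    rw [this]
    exact Matrix.rank_mul_le_right _ _
  have hcount : (univ.filter (fun i => μ < hherm.eigenvalues i)).card ≤ q := by
    subst hN
    exact few_sub hq hherm
  obtain ⟨z, w, hzw, hn, hsum⟩ := spec_vectors hherm htr habs hμ hcount hrank
  rw [Fintype.card_coe] at hsum
  -- the good vertices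
  obtain ⟨s, hs⟩ : ∃ s, s = Nat.sqrt q + 2 := ⟨_, rfl⟩
  have hsq : Real.sqrt q + 1 ≤ s := by
    rw [hs]
    push_cast
    have h1 : Real.sqrt q ≤ Nat.sqrt q + 1 := by
      rw [Real.sqrt_le_left (by positivity)]
      have := Nat.lt_succ_sqrt q
      have h2 : q ≤ (Nat.sqrt q + 1) ^ 2 := by
        rw [sq]; exact this.le
      exact_mod_cast h2
    linarith
  have hsum' : ∑ u, ‖z u‖ ^ 2 ≤ 2 * (s * A.card) := by
    refine hsum.trans (mul_le_mul_of_nonneg_left ?_ (by norm_num))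
    have : (Real.sqrt q + 1) * A.card ≤ s * A.card :=
      mul_le_mul_of_nonneg_right hsq (Nat.cast_nonneg _)
    linarith
  let zz : V → EuclideanSpace ℝ A := fun v => if h : v ∈ A then z ⟨v, h⟩ else 0
  let ww : V → EuclideanSpace ℝ A := fun v => if h : v ∈ A then σ • w ⟨v, h⟩ else 0
  have hzz : ∀ v (h : v ∈ A), zz v = z ⟨v, h⟩ := fun v h => dif_pos h
  have hww : ∀ v (h : v ∈ A), ww v = σ • w ⟨v, h⟩ := fun v h => dif_pos h
  let B : Finset V := A.filter (fun v => ‖zz v‖ ^ 2 ≤ ((4 * s : ℕ) : ℝ))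
  have hBA : B ⊆ A := filter_subset _ _
  have hBcard : A.card ≤ 2 * B.card := by
    have h1 : B.card + (A.filter (fun v => ¬ ‖zz v‖ ^ 2 ≤ ((4 * s : ℕ) : ℝ))).card = A.card :=
      card_filter_add_card_filter_not _
    obtain ⟨D, hD⟩ : ∃ D, D = A.filter (fun v => ¬ ‖zz v‖ ^ 2 ≤ ((4 * s : ℕ) : ℝ)) := ⟨_, rfl⟩
    rw [← hD] at h1
    have h2 : (D.card : ℝ) * (4 * s : ℕ) ≤ ∑ v ∈ D, ‖zz v‖ ^ 2 := by
      rw [← nsmul_eq_mul, ← sum_const]
      refine sum_le_sum fun v hv => ?_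
      rw [hD] at hv
      exact (not_le.1 (mem_filter.1 hv).2).le
    have h3 : ∑ v ∈ D, ‖zz v‖ ^ 2 ≤ ∑ v ∈ A, ‖zz v‖ ^ 2 :=
      sum_le_sum_of_subset_of_nonneg (hD ▸ filter_subset _ _) fun _ _ _ => sq_nonneg _
    have h4 : ∑ v ∈ A, ‖zz v‖ ^ 2 = ∑ u : A, ‖z u‖ ^ 2 := by
      rw [← sum_coe_sort A]
      refine sum_congr rfl fun u _ => ?_
      rw [hzz u u.2]
    rw [h4] at h3
    have h5 : (D.card : ℝ) * (4 * s : ℕ) ≤ 2 * (s * A.card) := h2.trans (h3.trans hsum')
    have h6 : D.card * (4 * s) ≤ 2 * (s * A.card) := by exact_mod_cast h5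
    have h7 : (2 * s) * (2 * D.card) ≤ (2 * s) * A.card := by
      calc (2 * s) * (2 * D.card) = D.card * (4 * s) := by ring
        _ ≤ 2 * (s * A.card) := h6
        _ = (2 * s) * A.card := by ring
    have h8 : 2 * D.card ≤ A.card := Nat.le_of_mul_le_mul_left h7 (by omega)
    omega
  obtain ⟨X, hX, Y, hY, h1, h2, b, hb⟩ := amp F zz ww B (h := 4 * s)
    (K := 4 * ((mat F).rank + 1)) (l := l) (by omega) (by omega) (by omega)
    (fun u hu => (mem_filter.1 hu).2)
    (fun u hu => by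
      have h1 := (mem_filter.1 hu).2
      have h2 := (mem_filter.1 hu).1
      rw [hww u h2, norm_smul, mul_pow, hn]
      rw [hzz u h2] at h1
      rcases hσ with h | h <;> rw [h] <;> simpa using h1)
    (fun u hu v hv => by
      have hu' := hBA hu
      have hv' := hBA hv
      rw [hzz u hu', hww v hv', real_inner_smul_right, hzw, hNval, ← mul_assoc]
      rcases hσ with h | h <;> rw [h] <;> simp)
  -- the space spanned by the rows and the constant function
  let R0 : Submodule ℝ (V → ℝ) := Submodule.span ℝ (Set.range (mat F).row)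
  let C0 : Submodule ℝ (V → ℝ) := Submodule.span ℝ {fun _ => (1 : ℝ)}
  have hR0 : Module.finrank ℝ R0 ≤ (mat F).rank := by
    rw [Matrix.rank_eq_finrank_span_row]
  have hC0 : Module.finrank ℝ C0 ≤ 1 := by
    have := finrank_span_le_card (R := ℝ) ({fun _ => (1 : ℝ)} : Set (V → ℝ))
    simpa using this
  have hR : Module.finrank ℝ (R0 ⊔ C0 : Submodule ℝ (V → ℝ)) ≤ (mat F).rank + 1 :=
    (Submodule.finrank_add_le_finrank_add_finrank R0 C0).trans (Nat.add_le_add hR0 hC0)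
  have hg : ∀ x, (fun y => bv (F x y) - bv b) ∈ (R0 ⊔ C0 : Submodule ℝ (V → ℝ)) := by
    intro x
    have e : (fun y => bv (F x y) - bv b) = (mat F).row x - (bv b) • (fun _ => (1 : ℝ)) := by
      funext y
      simp [mat]
    rw [e]
    exact Submodule.sub_mem _ (Submodule.mem_sup_left (Submodule.subset_span ⟨x, rfl⟩))
      (Submodule.mem_sup_right (Submodule.smul_mem _ _ (Submodule.subset_span rfl)))
  have hfil : (X ×ˢ Y).filter (fun p => (fun x y => bv (F x y) - bv b) p.1 p.2 ≠ 0) =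
      (X ×ˢ Y).filter (fun p => F p.1 p.2 ≠ b) := by
    refine filter_congr fun p _ => ?_
    constructor
    · intro h3 h4
      exact h3 (by simp only [h4, sub_self])
    · intro h3 h4
      exact h3 (Pool.Agent.Y424.LR.bv_inj (sub_eq_zero.1 h4))
  obtain ⟨X', hX', Y', hY', h3, h4, h5⟩ := Pool.Agent.Y424.PP.purify (R0 ⊔ C0) hR
    (fun x y => bv (F x y) - bv b) hg X Y (by rw [hfil]; exact hb)
  have hcst : cst l q = 2 * (4 ^ (3 * (4 * s) * l + 1) * 2) := by
    unfold cst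
    rw [hs]; ring
  refine ⟨X', hX'.trans (hX.trans hBA), Y', hY'.trans (hY.trans hBA), ?_, ?_, b,
    fun x hx y hy => Pool.Agent.Y424.LR.bv_inj (sub_eq_zero.1 (h5 x hx y hy))⟩
  · rw [hcst]
    calc A.card ≤ 2 * B.card := hBcard
      _ ≤ 2 * (4 ^ (3 * (4 * s) * l + 1) * X.card) := Nat.mul_le_mul_left _ h1
      _ ≤ 2 * (4 ^ (3 * (4 * s) * l + 1) * (2 * X'.card)) :=
        Nat.mul_le_mul_left _ (Nat.mul_le_mul_left _ h3)
      _ = _ := by ring
  · rw [hcst]
    calc A.card ≤ 2 * B.card := hBcard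
      _ ≤ 2 * (4 ^ (3 * (4 * s) * l + 1) * Y.card) := Nat.mul_le_mul_left _ h2
      _ ≤ 2 * (4 ^ (3 * (4 * s) * l + 1) * (2 * Y'.card)) :=
        Nat.mul_le_mul_left _ (Nat.mul_le_mul_left _ h4)
      _ = _ := by ring

/-- a disjoint pure pair or a large independent set -/
theorem core_disj {F : V → V → Bool} (hsym : ∀ x y, F x y = F y x) (hirr : ∀ x, F x x = false)
    {σ : ℝ} (hσ : σ = 1 ∨ σ = -1) {μ : ℝ} (hμ : 0 ≤ μ) {A : Finset V} {q l : ℕ}
    (hq : Few (σ • mat F) μ A q) (hl : 8 * ((mat F).rank + 1) ≤ 2 ^ l)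
    (hA : μ * (mat F).rank ≤ A.card) :
    (∃ X ⊆ A, ∃ Y ⊆ A, A.card ≤ 2 * cst l q * X.card ∧ A.card ≤ 2 * cst l q * Y.card ∧
      Disjoint X Y ∧ ∃ b, ∀ x ∈ X, ∀ y ∈ Y, F x y = b) ∨
    ∃ I ⊆ A, A.card ≤ 2 * cst l q * I.card ∧ ∀ x ∈ I, ∀ y ∈ I, F x y = false := by
  classical
  obtain ⟨X, hX, Y, hY, h1, h2, b, hb⟩ := core hsym hirr hσ hμ hq hl hA
  have h1' : A.card ≤ 2 * cst l q * X.card := by
    rw [mul_assoc]; omega
  have h2' : A.card ≤ 2 * cst l q * Y.card := by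
    rw [mul_assoc]; omega
  cases b with
  | true =>
    refine Or.inl ⟨X, hX, Y, hY, h1', h2', ?_, true, hb⟩
    rw [Finset.disjoint_left]
    intro x hx hy
    have := hb x hx x hy
    rw [hirr] at this
    exact Bool.noConfusion this
  | false =>
    have h3 : (X \ Y).card + (X ∩ Y).card = X.card := card_sdiff_add_card_inter X Y
    rcases le_total (X \ Y).card (X ∩ Y).card with h4 | h4
    · refine Or.inr ⟨X ∩ Y, inter_subset_left.trans hX, ?_, fun x hx y hy =>
        hb x (mem_inter.1 hx).1 y (mem_inter.1 hy).2⟩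
      calc A.card ≤ cst l q * X.card := h1
        _ ≤ cst l q * (2 * (X ∩ Y).card) := Nat.mul_le_mul_left _ (by omega)
        _ = _ := by ring
    · refine Or.inl ⟨X \ Y, sdiff_subset.trans hX, Y, hY, ?_, h2', sdiff_disjoint, false,
        fun x hx y hy => hb x (mem_sdiff.1 hx).1 y hy⟩
      calc A.card ≤ cst l q * X.card := h1
        _ ≤ cst l q * (2 * (X \ Y).card) := Nat.mul_le_mul_left _ (by omega)
        _ = _ := by ring

end Pool.Agent.H36.LR
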