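import Pool.Agent.H36.LR.Spec

/-!
# Few large eigenvalues, in a form which passes to principal submatrices
-/

set_option autoImplicit false

namespace Pool.Agent.H36.LR

open Finset
open scoped RealInnerProductSpace Matrix

variable {V : Type} [Fintype V]

/-- the bilinear form of a matrix -/
noncomputable def bf (N : Matrix V V ℝ) (u v : V → ℝ) : ℝ := ∑ x, ∑ y, u x * v y * N x y

/-- Every subspace of vectors supported on `A` on which the quadratic form exceeds `μ` times the
square of the norm has dimension at most `q`. -/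
def Few (N : Matrix V V ℝ) (μ : ℝ) (A : Finset V) (q : ℕ) : Prop :=
  ∀ S : Submodule ℝ (V → ℝ), (∀ v ∈ S, ∀ x, x ∉ A → v x = 0) →
    (∀ v ∈ S, v ≠ 0 → μ * ∑ x, v x ^ 2 < bf N v v) → Module.finrank ℝ S ≤ q

theorem Few.mono {N : Matrix V V ℝ} {μ : ℝ} {A A' : Finset V} {q : ℕ} (h : Few N μ A q)
    (hA : A' ⊆ A) : Few N μ A' q :=
  fun S h1 h2 => h S (fun v hv x hx => h1 v hv x (fun hx' => hx (hA hx'))) h2

theorem Few.mono_q {N : Matrix V V ℝ} {μ : ℝ} {A : Finset V} {q q' : ℕ} (h : Few N μ A q)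
    (hq : q ≤ q') : Few N μ A q' :=
  fun S h1 h2 => (h S h1 h2).trans hq

theorem few_univ [DecidableEq V] {M : Matrix V V ℝ} (hM : M.IsHermitian) (σ μ : ℝ) :
    Few (σ • M) μ univ (univ.filter (fun i => μ < σ * hM.eigenvalues i)).card := by
  classical
  intro S _ h2
  let I : Finset V := univ.filter (fun i => μ < σ * hM.eigenvalues i)
  let L : (V → ℝ) →ₗ[ℝ] (I → ℝ) :=
    { toFun := fun v i => ∑ u, hM.eigenvectorBasis i u * v u
      map_add' := fun v w => by
        funext i
        simp only [Pi.add_apply, mul_add, sum_add_distrib]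
      map_smul' := fun c v => by
        funext i
        simp only [Pi.smul_apply, smul_eq_mul, RingHom.id_apply, mul_sum]
        exact sum_congr rfl fun u _ => by ring }
  have hinj : Function.Injective (L.domRestrict S) := by
    rw [← LinearMap.ker_eq_bot, LinearMap.ker_eq_bot']
    rintro ⟨v, hv⟩ h
    by_contra hne
    have hv0 : v ≠ 0 := fun h0 => hne (by simp [h0])
    have h3 := h2 v hv hv0
    have h4 : ∀ i, μ < σ * hM.eigenvalues i → ∑ u, hM.eigenvectorBasis i u * v u = 0 := by
      intro i hi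
      exact congrFun h ⟨i, mem_filter.2 ⟨mem_univ _, hi⟩⟩
    have h5 : bf (σ • M) v v = ∑ i, σ * hM.eigenvalues i *
        (∑ u, hM.eigenvectorBasis i u * v u) ^ 2 := by
      unfold bf
      have : ∀ x y, v x * v y * (σ • M) x y = σ * (v x * v y * M x y) := by
        intro x y
        rw [Matrix.smul_apply, smul_eq_mul]; ring
      simp_rw [this, ← mul_sum]
      rw [quad hM, mul_sum]
      exact sum_congr rfl fun i _ => by ring
    rw [h5, ← parseval hM v, mul_sum] at h3
    refine absurd h3 (not_lt.2 (sum_le_sum fun i _ => ?_))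
    by_cases hi : μ < σ * hM.eigenvalues i
    · rw [h4 i hi]; simp
    · exact mul_le_mul_of_nonneg_right (not_lt.1 hi) (sq_nonneg _)
  have h6 := LinearMap.finrank_le_finrank_of_injective hinj
  rw [Module.finrank_fintype_fun_eq_card, Fintype.card_coe] at h6
  exact h6

theorem few_sub [DecidableEq V] {N : Matrix V V ℝ} {μ : ℝ} {A : Finset V} {q : ℕ}
    (h : Few N μ A q) (hN : (N.submatrix (Subtype.val : A → V) Subtype.val).IsHermitian) :
    (univ.filter (fun i => μ < hN.eigenvalues i)).card ≤ q := by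
  classical
  let I : Finset A := univ.filter (fun i => μ < hN.eigenvalues i)
  let T : (I → ℝ) →ₗ[ℝ] (V → ℝ) :=
    { toFun := fun c x => if hx : x ∈ A then ∑ i : I, c i * hN.eigenvectorBasis i ⟨x, hx⟩ else 0
      map_add' := fun v w => by
        funext x
        simp only [Pi.add_apply]
        split_ifs
        · simp only [add_mul, sum_add_distrib]
        · rw [add_zero]
      map_smul' := fun c v => by
        funext x
        simp only [Pi.smul_apply, smul_eq_mul, RingHom.id_apply]
        split_ifs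
        · rw [mul_sum]
          exact sum_congr rfl fun u _ => by ring
        · rw [mul_zero] }
  have hsub : ∀ (f : V → ℝ), (∀ x, x ∉ A → f x = 0) → ∑ x, f x = ∑ x : A, f x := by
    intro f hf
    rw [sum_coe_sort A f]
    symm
    apply sum_subset (subset_univ _)
    intro x _ hx
    exact hf x hx
  have hval : ∀ (c : I → ℝ) (x : A), T c x = ∑ i : I, c i * hN.eigenvectorBasis i x := by
    intro c x
    exact dif_pos x.2
  have hout : ∀ (c : I → ℝ) (x : V), x ∉ A → T c x = 0 := fun c x hx => dif_neg hx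
  have hco : ∀ (c : I → ℝ) (j : A), ∑ u : A, hN.eigenvectorBasis j u * T c u =
      if hj : j ∈ I then c ⟨j, hj⟩ else 0 := by
    intro c j
    simp_rw [hval, mul_sum]
    rw [sum_comm]
    have e1 : ∀ i : I, ∑ u : A, hN.eigenvectorBasis j u * (c i * hN.eigenvectorBasis i u) =
        c i * (if j = i then 1 else 0) := by
      intro i
      rw [← orth hN j i, mul_sum]
      exact sum_congr rfl fun u _ => by ring
    simp_rw [e1]
    by_cases hj : j ∈ I
    · rw [dif_pos hj, sum_eq_single ⟨j, hj⟩]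
      · simp
      · intro i _ hi
        rw [if_neg, mul_zero]
        intro h0
        exact hi (Subtype.ext h0.symm)
      · intro h0
        exact absurd (mem_univ _) h0
    · rw [dif_neg hj]
      refine sum_eq_zero fun i _ => ?_
      rw [if_neg, mul_zero]
      intro h0
      exact hj (h0 ▸ i.2)
  have hnorm : ∀ c : I → ℝ, ∑ x, T c x ^ 2 = ∑ i : I, c i ^ 2 := by
    intro c
    rw [hsub (fun x => T c x ^ 2) (fun x hx => by simp only [hout c x hx]; norm_num),
      ← parseval hN (fun x : A => T c x)]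
    simp_rw [hco]
    have e2 : ∀ i : A, (if hj : i ∈ I then c ⟨i, hj⟩ else 0) ^ 2 =
        if hj : i ∈ I then c ⟨i, hj⟩ ^ 2 else 0 := by
      intro i
      split_ifs <;> simp
    simp_rw [e2]
    rw [← sum_subset (subset_univ I) (fun i _ hi => dif_neg hi), ← sum_coe_sort I]
    exact sum_congr rfl fun i _ => dif_pos i.2
  have hquad : ∀ c : I → ℝ, bf N (T c) (T c) = ∑ i : I, hN.eigenvalues i * c i ^ 2 := by
    intro c
    have e1 : bf N (T c) (T c) = ∑ x : A, ∑ y : A, T c x * T c y *
        (N.submatrix (Subtype.val : A → V) Subtype.val) x y := by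
      unfold bf
      rw [hsub (fun x => ∑ y, T c x * T c y * N x y) (fun x hx => by
        simp only [hout c x hx, zero_mul, sum_const_zero])]
      refine sum_congr rfl fun x _ => ?_
      rw [hsub (fun y => T c x * T c y * N x y) (fun y hy => by
        simp only [hout c y hy, zero_mul, mul_zero])]
      rfl
    rw [e1, quad hN]
    simp_rw [hco]
    have e2 : ∀ i : A, hN.eigenvalues i * (if hj : i ∈ I then c ⟨i, hj⟩ else 0) ^ 2 =
        if hj : i ∈ I then hN.eigenvalues i * c ⟨i, hj⟩ ^ 2 else 0 := by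
      intro i
      split_ifs <;> simp
    simp_rw [e2]
    rw [← sum_subset (subset_univ I) (fun i _ hi => dif_neg hi), ← sum_coe_sort I]
    exact sum_congr rfl fun i _ => dif_pos i.2
  have hinj : Function.Injective T := by
    rw [← LinearMap.ker_eq_bot, LinearMap.ker_eq_bot']
    intro c hc
    have h3 := hnorm c
    rw [hc] at h3
    simp only [Pi.zero_apply, ne_eq, OfNat.ofNat_ne_zero, not_false_eq_true, zero_pow,
      sum_const_zero] at h3
    funext i
    have h4 := (sum_eq_zero_iff_of_nonneg (fun i _ => sq_nonneg (c i))).1 h3.symm i (mem_univ _)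
    exact pow_eq_zero_iff (two_ne_zero) |>.1 h4
  have h5 := h (LinearMap.range T) (by
    rintro v ⟨c, rfl⟩ x hx
    exact hout c x hx) (by
    rintro v ⟨c, rfl⟩ hv
    rw [hnorm, hquad, mul_sum]
    have hc : c ≠ 0 := fun h0 => hv (by rw [h0, map_zero])
    obtain ⟨i, hi⟩ := Function.ne_iff.1 hc
    have hpos : 0 < c i ^ 2 := by
      rw [Pi.zero_apply] at hi
      positivity
    refine sum_lt_sum (fun j _ => mul_le_mul_of_nonneg_right (mem_filter.1 j.2).2.le
      (sq_nonneg _)) ⟨i, mem_univ _, mul_lt_mul_of_pos_right (mem_filter.1 i.2).2 hpos⟩)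
  rw [LinearMap.finrank_range_of_inj hinj, Module.finrank_fintype_fun_eq_card,
    Fintype.card_coe] at h5
  exact h5

theorem bf_add_left (N : Matrix V V ℝ) (u u' v : V → ℝ) :
    bf N (u + u') v = bf N u v + bf N u' v := by
  unfold bf
  rw [← sum_add_distrib]
  refine sum_congr rfl fun x _ => ?_
  rw [← sum_add_distrib]
  refine sum_congr rfl fun y _ => ?_
  rw [Pi.add_apply]; ring

theorem bf_add_right (N : Matrix V V ℝ) (u v v' : V → ℝ) :
    bf N u (v + v') = bf N u v + bf N u v' := by
  unfold bf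
  rw [← sum_add_distrib]
  refine sum_congr rfl fun x _ => ?_
  rw [← sum_add_distrib]
  refine sum_congr rfl fun y _ => ?_
  rw [Pi.add_apply]; ring

theorem bf_zero (N : Matrix V V ℝ) : bf N 0 0 = 0 := by
  unfold bf
  simp

theorem bf_const {N : Matrix V V ℝ} {X Y : Finset V} {c : ℝ} (hc : ∀ x ∈ X, ∀ y ∈ Y, N x y = c)
    {s t : V → ℝ} (hs : ∀ x, x ∉ X → s x = 0) (ht : ∀ y, y ∉ Y → t y = 0) (h0 : ∑ x, s x = 0) :
    bf N s t = 0 := by
  have e : ∀ x y, s x * t y * N x y = s x * (c * t y) := by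
    intro x y
    by_cases hx : x ∈ X
    · by_cases hy : y ∈ Y
      · rw [hc x hx y hy]; ring
      · rw [ht y hy]; ring
    · rw [hs x hx]; ring
  unfold bf
  simp_rw [e, ← mul_sum]
  rw [← sum_mul, h0, zero_mul]

theorem bf_symm {N : Matrix V V ℝ} (hN : ∀ x y, N x y = N y x) (s t : V → ℝ) :
    bf N s t = bf N t s := by
  unfold bf
  rw [sum_comm]
  exact sum_congr rfl fun x _ => sum_congr rfl fun y _ => by rw [hN y x]; ring

/-- **Halving.** -/
theorem Few.half {N : Matrix V V ℝ} (hN : ∀ x y, N x y = N y x) {μ : ℝ} {A X Y : Finset V}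
    {Q : ℕ} (h : Few N μ A Q) (hX : X ⊆ A) (hY : Y ⊆ A) (hXY : Disjoint X Y) {c : ℝ}
    (hc : ∀ x ∈ X, ∀ y ∈ Y, N x y = c) :
    Few N μ X ((Q + 1) / 2) ∨ Few N μ Y ((Q + 1) / 2) := by
  classical
  by_contra hcon
  rw [not_or] at hcon
  obtain ⟨hnX, hnY⟩ := hcon
  unfold Few at hnX hnY
  push Not at hnX hnY
  obtain ⟨S, hS1, hS2, hS3⟩ := hnX
  obtain ⟨T, hT1, hT2, hT3⟩ := hnY
  let φ : (V → ℝ) →ₗ[ℝ] ℝ :=
    { toFun := fun v => ∑ x, v x
      map_add' := fun v w => by simp [sum_add_distrib]
      map_smul' := fun c v => by simp [mul_sum] }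
  have hker : Fintype.card V ≤ Module.finrank ℝ (LinearMap.ker φ) + 1 := by
    have h1 := LinearMap.finrank_range_add_finrank_ker φ
    have h2 : Module.finrank ℝ (LinearMap.range φ) ≤ 1 := by
      have := Submodule.finrank_le (LinearMap.range φ)
      rwa [Module.finrank_self] at this
    rw [Module.finrank_fintype_fun_eq_card] at h1
    omega
  have hS0 : Module.finrank ℝ S ≤ Module.finrank ℝ (S ⊓ LinearMap.ker φ : Submodule ℝ (V → ℝ)) + 1 := by
    have h1 := Submodule.finrank_sup_add_finrank_inf_eq S (LinearMap.ker φ)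
    have h2 := Submodule.finrank_le (S ⊔ LinearMap.ker φ)
    rw [Module.finrank_fintype_fun_eq_card] at h2
    omega
  obtain ⟨S0, hS0'⟩ : ∃ S0, S0 = (S ⊓ LinearMap.ker φ : Submodule ℝ (V → ℝ)) := ⟨_, rfl⟩
  rw [← hS0'] at hS0
  have hbot : S0 ⊓ T = ⊥ := by
    rw [eq_bot_iff]
    intro v hv
    rw [Submodule.mem_bot]
    have hv1 : v ∈ S := by
      have := (Submodule.mem_inf.1 hv).1
      rw [hS0'] at this
      exact (Submodule.mem_inf.1 this).1
    have hv2 : v ∈ T := (Submodule.mem_inf.1 hv).2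
    funext x
    by_cases hx : x ∈ X
    · exact hT1 v hv2 x (fun hy => (Finset.disjoint_left.1 hXY hx hy))
    · exact hS1 v hv1 x hx
  have hdim : Module.finrank ℝ (S0 ⊔ T : Submodule ℝ (V → ℝ)) =
      Module.finrank ℝ S0 + Module.finrank ℝ T := by
    have h1 := Submodule.finrank_sup_add_finrank_inf_eq S0 T
    rw [hbot, finrank_bot, add_zero] at h1
    exact h1
  have hU := h (S0 ⊔ T) (by
    intro v hv x hx
    obtain ⟨s, hs, t, ht, rfl⟩ := Submodule.mem_sup.1 hv
    rw [hS0'] at hs
    rw [Pi.add_apply, hS1 s (Submodule.mem_inf.1 hs).1 x (fun h => hx (hX h)),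
      hT1 t ht x (fun h => hx (hY h)), add_zero]) (by
    intro v hv hv0
    obtain ⟨s, hs, t, ht, rfl⟩ := Submodule.mem_sup.1 hv
    rw [hS0'] at hs
    obtain ⟨hs1, hs2⟩ := Submodule.mem_inf.1 hs
    have hs3 : ∑ x, s x = 0 := LinearMap.mem_ker.1 hs2
    have e1 : bf N s t = 0 := bf_const hc (hS1 s hs1) (hT1 t ht) hs3
    have e2 : bf N t s = 0 := by rw [bf_symm hN, e1]
    have e3 : bf N (s + t) (s + t) = bf N s s + bf N t t := by
      rw [bf_add_left, bf_add_right, bf_add_right, e1, e2]; ring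
    have e4 : ∑ x, (s + t) x ^ 2 = ∑ x, s x ^ 2 + ∑ x, t x ^ 2 := by
      rw [← sum_add_distrib]
      refine sum_congr rfl fun x _ => ?_
      rw [Pi.add_apply]
      by_cases hx : x ∈ X
      · rw [hT1 t ht x (fun hy => (Finset.disjoint_left.1 hXY hx hy))]; ring
      · rw [hS1 s hs1 x hx]; ring
    rw [e3, e4, mul_add]
    have f1 : μ * ∑ x, s x ^ 2 ≤ bf N s s := by
      by_cases h0 : s = 0
      · rw [h0, bf_zero]; simp
      · exact (hS2 s hs1 h0).le
    have f2 : μ * ∑ x, t x ^ 2 ≤ bf N t t := by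
      by_cases h0 : t = 0
      · rw [h0, bf_zero]; simp
      · exact (hT2 t ht h0).le
    by_cases h0 : s = 0
    · have ht0 : t ≠ 0 := by
        intro h1
        exact hv0 (by rw [h0, h1, add_zero])
      have := hT2 t ht ht0
      linarith
    · have := hS2 s hs1 h0
      linarith)
  rw [hdim] at hU
  omega

end Pool.Agent.H36.LR
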