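import Mathlib

/-!
# Gaussian averages of products of sines

For the standard Gaussian vector `x` of a finite dimensional Euclidean space the average of
`sin ⟪x, s⟫ * sin ⟪x, t⟫` is `exp (-(‖s‖² + ‖t‖²) / 2) * sinh ⟪s, t⟫`.
-/

set_option autoImplicit false

namespace Pool.Agent.H36.LR

open MeasureTheory ProbabilityTheory Complex
open scoped RealInnerProductSpace

variable {E : Type} [NormedAddCommGroup E] [InnerProductSpace ℝ E] [FiniteDimensional ℝ E]
  [MeasurableSpace E] [BorelSpace E]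

theorem integrable_bdd {f : E → ℝ} (hf : Continuous f) (C : ℝ) (hC : ∀ x, |f x| ≤ C) :
    Integrable f (stdGaussian E) :=
  Integrable.of_bound hf.aestronglyMeasurable C
    (Filter.Eventually.of_forall (fun x => by rw [Real.norm_eq_abs]; exact hC x))

theorem int_exp (t : E) : ∫ x, cexp (⟪x, t⟫ * I) ∂(stdGaussian E) = cexp (-‖t‖ ^ 2 / 2) := by
  have := charFun_stdGaussian (E := E) t
  rwa [charFun_apply] at this

theorem integrable_exp (t : E) : Integrable (fun x : E => cexp (⟪x, t⟫ * I)) (stdGaussian E) := by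
  refine Integrable.of_bound (C := 1) ?_ ?_
  · exact Continuous.aestronglyMeasurable (by fun_prop)
  · refine Filter.Eventually.of_forall fun x => ?_
    rw [Complex.norm_exp_ofReal_mul_I]

theorem int_cos (t : E) : ∫ x, Real.cos ⟪x, t⟫ ∂(stdGaussian E) = Real.exp (-‖t‖ ^ 2 / 2) := by
  have h1 := int_exp t
  have h2 := integrable_exp t
  have h3 : ∫ x, (cexp (⟪x, t⟫ * I)).re ∂(stdGaussian E) =
      (∫ x, cexp (⟪x, t⟫ * I) ∂(stdGaussian E)).re := by
    have := integral_re h2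
    simpa using this
  have h4 : ∀ x : E, (cexp (⟪x, t⟫ * I)).re = Real.cos ⟪x, t⟫ := fun x =>
    Complex.exp_ofReal_mul_I_re _
  simp_rw [h4] at h3
  rw [h3, h1]
  have : cexp (-(‖t‖ : ℂ) ^ 2 / 2) = ((Real.exp (-‖t‖ ^ 2 / 2) : ℝ) : ℂ) := by
    push_cast
    rfl
  rw [this, Complex.ofReal_re]

theorem int_sin (t : E) : ∫ x, Real.sin ⟪x, t⟫ ∂(stdGaussian E) = 0 := by
  have h1 := int_exp t
  have h2 := integrable_exp t
  have h3 : ∫ x, (cexp (⟪x, t⟫ * I)).im ∂(stdGaussian E) =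
      (∫ x, cexp (⟪x, t⟫ * I) ∂(stdGaussian E)).im := by
    have := integral_im h2
    simpa using this
  have h4 : ∀ x : E, (cexp (⟪x, t⟫ * I)).im = Real.sin ⟪x, t⟫ := fun x =>
    Complex.exp_ofReal_mul_I_im _
  simp_rw [h4] at h3
  rw [h3, h1]
  have : cexp (-(‖t‖ : ℂ) ^ 2 / 2) = ((Real.exp (-‖t‖ ^ 2 / 2) : ℝ) : ℂ) := by
    push_cast
    rfl
  rw [this, Complex.ofReal_im]

theorem int_sin_sin (s t : E) : ∫ x, Real.sin ⟪x, s⟫ * Real.sin ⟪x, t⟫ ∂(stdGaussian E) =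
    Real.exp (-(‖s‖ ^ 2 + ‖t‖ ^ 2) / 2) * Real.sinh ⟪s, t⟫ := by
  have h1 : ∀ x : E, Real.sin ⟪x, s⟫ * Real.sin ⟪x, t⟫ =
      (Real.cos ⟪x, s - t⟫ - Real.cos ⟪x, s + t⟫) / 2 := by
    intro x
    rw [inner_sub_right, inner_add_right, Real.cos_sub, Real.cos_add]
    ring
  simp_rw [h1]
  rw [integral_div, integral_sub (integrable_bdd (by fun_prop) 1 fun x => Real.abs_cos_le_one _)
    (integrable_bdd (by fun_prop) 1 fun x => Real.abs_cos_le_one _), int_cos, int_cos]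
  have e1 : -‖s - t‖ ^ 2 / 2 = -(‖s‖ ^ 2 + ‖t‖ ^ 2) / 2 + ⟪s, t⟫ := by
    rw [norm_sub_sq_real]; ring
  have e2 : -‖s + t‖ ^ 2 / 2 = -(‖s‖ ^ 2 + ‖t‖ ^ 2) / 2 - ⟪s, t⟫ := by
    rw [norm_add_sq_real]; ring
  rw [e1, e2, Real.exp_add, sub_eq_add_neg (-(‖s‖ ^ 2 + ‖t‖ ^ 2) / 2), Real.exp_add,
    Real.sinh_eq]
  ring

/-- One round: fractional sets with a prescribed correlation. -/
theorem round {V : Type} [Fintype V] (c : V → V → ℝ) (z w : V → E) (σ : ℝ) (hσ : |σ| ≤ 1)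
    (a b : V → ℝ) (ha : ∀ u, 0 ≤ a u ∧ a u ≤ 1) (hb : ∀ u, 0 ≤ b u ∧ b u ≤ 1) :
    ∃ a' b' : V → ℝ, (∀ u, 0 ≤ a' u ∧ a' u ≤ 1) ∧ (∀ u, 0 ≤ b' u ∧ b' u ≤ 1) ∧
      ∑ u, ∑ v, c u v * (a u * b v) * ((1 + σ * (Real.exp (-(‖z u‖ ^ 2 + ‖w v‖ ^ 2) / 2) *
        Real.sinh ⟪z u, w v⟫)) / 4) ≤ ∑ u, ∑ v, c u v * (a' u * b' v) := by
  have hterm : ∀ u v, ∫ x : E, c u v * ((a u * ((1 + Real.sin ⟪x, z u⟫) / 2)) *
      (b v * ((1 + σ * Real.sin ⟪x, w v⟫) / 2))) ∂(stdGaussian E) =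
      c u v * (a u * b v) * ((1 + σ * (Real.exp (-(‖z u‖ ^ 2 + ‖w v‖ ^ 2) / 2) *
        Real.sinh ⟪z u, w v⟫)) / 4) := by
    intro u v
    have e : ∀ x : E, c u v * ((a u * ((1 + Real.sin ⟪x, z u⟫) / 2)) *
      (b v * ((1 + σ * Real.sin ⟪x, w v⟫) / 2))) = (c u v * (a u * b v) / 4) *
      (1 + Real.sin ⟪x, z u⟫ + σ * Real.sin ⟪x, w v⟫ +
        σ * (Real.sin ⟪x, z u⟫ * Real.sin ⟪x, w v⟫)) := by
      intro x; ring
    simp_rw [e]
    rw [integral_const_mul]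
    have i1 : Integrable (fun x : E => Real.sin ⟪x, z u⟫) (stdGaussian E) :=
      integrable_bdd (by fun_prop) 1 fun x => Real.abs_sin_le_one _
    have i2 : Integrable (fun x : E => σ * Real.sin ⟪x, w v⟫) (stdGaussian E) :=
      (integrable_bdd (by fun_prop) 1 fun x => Real.abs_sin_le_one _).const_mul _
    have i3 : Integrable (fun x : E => σ * (Real.sin ⟪x, z u⟫ * Real.sin ⟪x, w v⟫))
        (stdGaussian E) :=
      (integrable_bdd (by fun_prop) 1 fun x => by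
        rw [abs_mul]
        exact mul_le_one₀ (Real.abs_sin_le_one _) (abs_nonneg _)
          (Real.abs_sin_le_one _)).const_mul _
    have i0 : Integrable (fun _ : E => (1 : ℝ)) (stdGaussian E) := integrable_const _
    have i01 : Integrable (fun x : E => 1 + Real.sin ⟪x, z u⟫) (stdGaussian E) := i0.add i1
    have i012 : Integrable (fun x : E => 1 + Real.sin ⟪x, z u⟫ + σ * Real.sin ⟪x, w v⟫)
        (stdGaussian E) := i01.add i2
    rw [integral_add i012 i3, integral_add i01 i2, integral_add i0 i1,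
      integral_const_mul, integral_const_mul, int_sin, int_sin, int_sin_sin]
    simp
    ring
  have hint : ∀ u v, Integrable (fun x : E => c u v * ((a u * ((1 + Real.sin ⟪x, z u⟫) / 2)) *
      (b v * ((1 + σ * Real.sin ⟪x, w v⟫) / 2)))) (stdGaussian E) := by
    intro u v
    refine (integrable_bdd (by fun_prop) 1 fun x => ?_).const_mul _
    have h1 := Real.sin_le_one ⟪x, z u⟫
    have h2 := Real.neg_one_le_sin ⟪x, z u⟫
    have h3 : |σ * Real.sin ⟪x, w v⟫| ≤ 1 := by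
      rw [abs_mul]
      exact mul_le_one₀ hσ (abs_nonneg _) (Real.abs_sin_le_one _)
    have h4 := (abs_le.1 h3)
    rw [abs_mul]
    refine mul_le_one₀ ?_ (abs_nonneg _) ?_
    · rw [abs_mul]
      refine mul_le_one₀ ?_ (abs_nonneg _) ?_
      · rw [abs_of_nonneg (ha u).1]; exact (ha u).2
      · rw [abs_of_nonneg (by linarith)]; linarith
    · rw [abs_mul]
      refine mul_le_one₀ ?_ (abs_nonneg _) ?_
      · rw [abs_of_nonneg (hb v).1]; exact (hb v).2
      · rw [abs_of_nonneg (by linarith [h4.1])]; linarith [h4.2]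
  obtain ⟨x, hx⟩ := exists_integral_le (μ := stdGaussian E)
    (f := fun x : E => ∑ u, ∑ v, c u v * ((a u * ((1 + Real.sin ⟪x, z u⟫) / 2)) *
      (b v * ((1 + σ * Real.sin ⟪x, w v⟫) / 2))))
    (integrable_finsetSum _ fun u _ => integrable_finsetSum _ fun v _ => hint u v)
  rw [integral_finsetSum _ fun u _ => integrable_finsetSum _ fun v _ => hint u v] at hx
  have hx' : ∑ u, ∑ v, c u v * (a u * b v) * ((1 + σ * (Real.exp (-(‖z u‖ ^ 2 + ‖w v‖ ^ 2) / 2) *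
        Real.sinh ⟪z u, w v⟫)) / 4) ≤ ∑ u, ∑ v, c u v * ((a u * ((1 + Real.sin ⟪x, z u⟫) / 2)) *
      (b v * ((1 + σ * Real.sin ⟪x, w v⟫) / 2))) := by
    refine le_trans (le_of_eq ?_) hx
    refine Finset.sum_congr rfl fun u _ => ?_
    rw [integral_finsetSum _ fun v _ => hint u v]
    exact Finset.sum_congr rfl fun v _ => (hterm u v).symm
  refine ⟨fun u => a u * ((1 + Real.sin ⟪x, z u⟫) / 2),
    fun v => b v * ((1 + σ * Real.sin ⟪x, w v⟫) / 2), fun u => ?_, fun v => ?_, hx'⟩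
  · have h1 := Real.sin_le_one ⟪x, z u⟫
    have h2 := Real.neg_one_le_sin ⟪x, z u⟫
    exact ⟨mul_nonneg (ha u).1 (by linarith),
      mul_le_one₀ (ha u).2 (by linarith) (by linarith)⟩
  · have h3 : |σ * Real.sin ⟪x, w v⟫| ≤ 1 := by
      rw [abs_mul]
      exact mul_le_one₀ hσ (abs_nonneg _) (Real.abs_sin_le_one _)
    have h4 := (abs_le.1 h3)
    exact ⟨mul_nonneg (hb v).1 (by linarith [h4.1]),
      mul_le_one₀ (hb v).2 (by linarith [h4.1]) (by linarith [h4.2])⟩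

end Pool.Agent.H36.LR
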