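import Pool.Agent.H36.LR.Core

/-!
# Large independent sets, by halving first the number of large eigenvalues and then the rank
-/

set_option autoImplicit false

namespace Pool.Agent.H36.LR

open Finset
open Pool.Agent.Y424.LR (bv mat Sys)

variable {V : Type} [Fintype V]

theorem cst_pos (l q : ℕ) : 1 ≤ cst l q := by
  unfold cst
  have : 1 ≤ 4 ^ (3 * (4 * (Nat.sqrt q + 2)) * l + 1) := Nat.one_le_pow _ _ (by norm_num)
  omega

/-- halving the rank -/
theorem rank_halving {F : V → V → Bool} (hsym : ∀ x y, F x y = F y x)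
    (hirr : ∀ x, F x x = false) {σ : ℝ} (hσ : σ = 1 ∨ σ = -1) {μ : ℝ} (hμ : 0 ≤ μ) {q l : ℕ}
    (hl : 8 * ((mat F).rank + 1) ≤ 2 ^ l) {s : ℕ} (hs1 : 1 ≤ s) (hs : μ * (mat F).rank ≤ s) :
    ∀ (k : ℕ) (A : Finset V), A.Nonempty → Few (σ • mat F) μ A q → ¬ Sys F (2 ^ k) A A →
    ∃ I ⊆ A, A.card ≤ cst l q ^ k * s * I.card ∧ ∀ x ∈ I, ∀ y ∈ I, F x y = false := by
  classical
  intro k
  induction k with
  | zero =>
    intro A _ _ h
    refine ⟨A, Subset.rfl, ?_, Pool.Agent.Y424.PP.indep_of_no_sys hsym hirr h⟩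
    rw [pow_zero, one_mul]
    exact Nat.le_mul_of_pos_left _ (by omega)
  | succ k ih =>
    intro A hA hq h
    have hc := cst_pos l q
    by_cases hsmall : A.card ≤ s
    · obtain ⟨a, ha⟩ := hA
      refine ⟨{a}, singleton_subset_iff.2 ha, ?_, ?_⟩
      · rw [card_singleton, mul_one]
        exact hsmall.trans (Nat.le_mul_of_pos_left _ (Nat.pow_pos (by omega)))
      · intro x hx y hy
        rw [mem_singleton.1 hx, mem_singleton.1 hy]
        exact hirr a
    · have hbig : μ * (mat F).rank ≤ A.card := by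
        refine hs.trans ?_
        exact_mod_cast (not_le.1 hsmall).le
      obtain ⟨X, hX, Y, hY, h1, h2, b, hb⟩ := core hsym hirr hσ hμ hq hl hbig
      have hpos : 0 < A.card := card_pos.2 hA
      have key : ∀ Z : Finset V, Z ⊆ A → A.card ≤ cst l q * Z.card → ¬ Sys F (2 ^ k) Z Z →
          ∃ I ⊆ A, A.card ≤ cst l q ^ (k + 1) * s * I.card ∧ ∀ x ∈ I, ∀ y ∈ I, F x y = false := by
        intro Z hZ hcard hsys
        have hZn : Z.Nonempty := by
          rw [← card_pos]
          by_contra h0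
          have : Z.card = 0 := by omega
          rw [this, mul_zero] at hcard
          omega
        obtain ⟨I, hI, h3, h4⟩ := ih Z hZn (hq.mono hZ) hsys
        refine ⟨I, hI.trans hZ, ?_, h4⟩
        calc A.card ≤ cst l q * Z.card := hcard
          _ ≤ cst l q * (cst l q ^ k * s * I.card) := Nat.mul_le_mul_left _ h3
          _ = cst l q ^ (k + 1) * s * I.card := by ring
      by_cases hs1 : Sys F (2 ^ k) X X
      · by_cases hs2 : Sys F (2 ^ k) Y Y
        · exfalso
          apply h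
          have h5 := Pool.Agent.Y424.LR.Sys.add hb hX hY (hs1.mono Subset.rfl hX)
            (hs2.mono hY Subset.rfl)
          have h6 : 2 ^ (k + 1) = 2 ^ k + 2 ^ k := by ring
          rw [h6]
          exact h5
        · exact key Y hY h2 hs2
      · exact key X hX h1 hs1

theorem cst_eq (l q : ℕ) : ((2 * cst l q : ℕ) : ℝ) =
    (2 : ℝ) ^ ((24 * (Nat.sqrt q + 2) * l + 5 : ℕ) : ℝ) := by
  rw [Real.rpow_natCast]
  unfold cst
  push_cast
  rw [show (4 : ℝ) = 2 ^ 2 by norm_num, ← pow_mul]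
  rw [show (2 : ℝ) * (2 ^ 2 * 2 ^ (2 * (3 * (4 * (Nat.sqrt q + 2)) * l + 1))) =
    2 ^ (3 + (2 * (3 * (4 * (Nat.sqrt q + 2)) * l + 1))) by rw [pow_add]; ring]
  congr 1
  ring

theorem sqrt_step {Q : ℕ} (hQ : 2 ≤ Q) :
    24 * (Real.sqrt Q + 2) + 2 + 330 * Real.sqrt ((Q + 1) / 2 : ℕ) ≤ 330 * Real.sqrt Q := by
  have h1 : (((Q + 1) / 2 : ℕ) : ℝ) ≤ 2 / 3 * Q := by
    have : 3 * ((Q + 1) / 2) ≤ 2 * Q := by omega
    have h : (3 : ℝ) * (((Q + 1) / 2 : ℕ) : ℝ) ≤ 2 * Q := by exact_mod_cast this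
    linarith
  have h2 : Real.sqrt ((Q + 1) / 2 : ℕ) ≤ 0.818 * Real.sqrt Q := by
    rw [Real.sqrt_le_left (by positivity), mul_pow, Real.sq_sqrt (Nat.cast_nonneg Q)]
    have : (0 : ℝ) ≤ Q := Nat.cast_nonneg Q
    nlinarith
  have h3 : (1.4 : ℝ) ≤ Real.sqrt Q := by
    rw [Real.le_sqrt (by norm_num) (Nat.cast_nonneg Q)]
    have : (2 : ℝ) ≤ Q := by exact_mod_cast hQ
    linarith
  nlinarith

/-- **Halving the number of large eigenvalues.** -/
theorem eig_halving {F : V → V → Bool} (hsym : ∀ x y, F x y = F y x)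
    (hirr : ∀ x, F x x = false) {σ : ℝ} (hσ : σ = 1 ∨ σ = -1) {μ : ℝ} (hμ : 0 ≤ μ) {l : ℕ}
    (hl : 8 * ((mat F).rank + 1) ≤ 2 ^ l) {s : ℕ} (hs1 : 1 ≤ s) (hs : μ * (mat F).rank ≤ s) :
    ∀ (Q : ℕ) (A : Finset V), 1 ≤ Q → A.Nonempty → Few (σ • mat F) μ A Q →
    ∃ I ⊆ A, (A.card : ℝ) ≤ 2 ^ (330 * l * Real.sqrt Q) *
      (cst l 1 ^ (Nat.log 2 (mat F).rank + 1) * s : ℕ) * I.card ∧
      ∀ x ∈ I, ∀ y ∈ I, F x y = false := by
  classical
  have hl2 : 3 ≤ l := by
    by_contra h
    have h2 : 2 ^ l ≤ 2 ^ 2 := Nat.pow_le_pow_right (by norm_num) (by omega)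
    omega
  have hl3 : (3 : ℝ) ≤ l := by exact_mod_cast hl2
  intro Q
  induction Q using Nat.strong_induction_on with
  | _ Q ih =>
    intro A hQ hA hq
    obtain ⟨P, hP⟩ : ∃ P, P = cst l 1 ^ (Nat.log 2 (mat F).rank + 1) * s := ⟨_, rfl⟩
    have hP1 : 1 ≤ P := by
      rw [hP]
      exact Nat.mul_pos (Nat.pow_pos (cst_pos l 1)) hs1
    have hP1' : (1 : ℝ) ≤ P := by exact_mod_cast hP1
    rw [← hP]
    have htwo : ∀ t : ℝ, 0 ≤ t → (1 : ℝ) ≤ 2 ^ t := fun t ht =>
      Real.one_le_rpow (by norm_num) ht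
    have hex : (0 : ℝ) ≤ 330 * l * Real.sqrt Q := by positivity
    rcases Nat.lt_or_ge Q 2 with h1 | h1
    · have hQ1 : Q = 1 := by omega
      subst hQ1
      obtain ⟨I, hI, h2, h3⟩ := rank_halving hsym hirr hσ hμ hl hs1 hs
        (Nat.log 2 (mat F).rank + 1) A hA hq (by
          intro hsys
          have h1 := hsys.le_rank
          have h2 : (mat F).rank < 2 ^ (Nat.log 2 (mat F).rank + 1) :=
            Nat.lt_pow_succ_log_self (by norm_num) _
          omega)
      rw [← hP] at h2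
      refine ⟨I, hI, ?_, h3⟩
      have h2' : (A.card : ℝ) ≤ P * I.card := by exact_mod_cast h2
      refine h2'.trans ?_
      rw [mul_assoc]
      exact le_mul_of_one_le_left (by positivity) (htwo _ hex)
    · by_cases hsmall : A.card ≤ s
      · obtain ⟨a, ha⟩ := hA
        refine ⟨{a}, singleton_subset_iff.2 ha, ?_, ?_⟩
        · rw [card_singleton, Nat.cast_one, mul_one]
          have h4 : A.card ≤ P := by
            rw [hP]
            exact hsmall.trans (Nat.le_mul_of_pos_left _ (Nat.pow_pos (cst_pos l 1)))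
          have h4' : (A.card : ℝ) ≤ P := by exact_mod_cast h4
          exact h4'.trans (le_mul_of_one_le_left (by positivity) (htwo _ hex))
        · intro x hx y hy
          rw [mem_singleton.1 hx, mem_singleton.1 hy]
          exact hirr a
      · have hbig : μ * (mat F).rank ≤ A.card := by
          refine hs.trans ?_
          exact_mod_cast (not_le.1 hsmall).le
        have hcst : ((2 * cst l Q : ℕ) : ℝ) * 2 ^ (330 * l * Real.sqrt ((Q + 1) / 2 : ℕ)) ≤
            2 ^ (330 * l * Real.sqrt Q) := by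
          rw [cst_eq, ← Real.rpow_add (by norm_num)]
          refine Real.rpow_le_rpow_of_exponent_le (by norm_num) ?_
          push_cast
          have h4 : (Nat.sqrt Q : ℝ) ≤ Real.sqrt Q := Real.nat_sqrt_le_real_sqrt
          have h5 := sqrt_step h1
          have h6 : (24 * (Real.sqrt Q + 2) + 2 + 330 * Real.sqrt ((Q + 1) / 2 : ℕ)) * l ≤
            330 * Real.sqrt Q * l := mul_le_mul_of_nonneg_right h5 (by positivity)
          have h7 : 24 * ((Nat.sqrt Q : ℝ) + 2) * l ≤ 24 * (Real.sqrt Q + 2) * l := by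
            refine mul_le_mul_of_nonneg_right ?_ (by positivity)
            linarith
          linarith
        have key : ∀ Z : Finset V, Z ⊆ A → A.card ≤ 2 * cst l Q * Z.card →
            Few (σ • mat F) μ Z ((Q + 1) / 2) →
            ∃ I ⊆ A, (A.card : ℝ) ≤ 2 ^ (330 * l * Real.sqrt Q) * P * I.card ∧
              ∀ x ∈ I, ∀ y ∈ I, F x y = false := by
          intro Z hZ hcard hfew
          have hZn : Z.Nonempty := by
            rw [← card_pos]
            by_contra h0
            have : Z.card = 0 := by omega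
            rw [this, mul_zero] at hcard
            have := card_pos.2 hA
            omega
          obtain ⟨I, hI, h3, h4⟩ := ih ((Q + 1) / 2) (by omega) Z (by omega) hZn hfew
          rw [← hP] at h3
          refine ⟨I, hI.trans hZ, ?_, h4⟩
          have hcard' : (A.card : ℝ) ≤ (2 * cst l Q : ℕ) * Z.card := by exact_mod_cast hcard
          calc (A.card : ℝ) ≤ (2 * cst l Q : ℕ) * Z.card := hcard'
            _ ≤ (2 * cst l Q : ℕ) *
                (2 ^ (330 * l * Real.sqrt ((Q + 1) / 2 : ℕ)) * P * I.card) :=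
              mul_le_mul_of_nonneg_left h3 (Nat.cast_nonneg _)
            _ = ((2 * cst l Q : ℕ) * 2 ^ (330 * l * Real.sqrt ((Q + 1) / 2 : ℕ))) *
                (P * I.card) := by ring
            _ ≤ 2 ^ (330 * l * Real.sqrt Q) * (P * I.card) :=
              mul_le_mul_of_nonneg_right hcst (by positivity)
            _ = _ := by ring
        rcases core_disj hsym hirr hσ hμ hq hl hbig with
          ⟨X, hX, Y, hY, h2, h3, hdisj, b, hb⟩ | ⟨I, hI, h2, h3⟩
        · have hNsym : ∀ x y, (σ • mat F) x y = (σ • mat F) y x := by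
            intro x y
            change σ * bv (F x y) = σ * bv (F y x)
            rw [hsym]
          have hNc : ∀ x ∈ X, ∀ y ∈ Y, (σ • mat F) x y = σ * bv b := by
            intro x hx y hy
            change σ * bv (F x y) = σ * bv b
            rw [hb x hx y hy]
          rcases hq.half hNsym hX hY hdisj hNc with h4 | h4
          · exact key X hX h2 h4
          · exact key Y hY h3 h4
        · refine ⟨I, hI, ?_, h3⟩
          have h2' : (A.card : ℝ) ≤ (2 * cst l Q : ℕ) * I.card := by exact_mod_cast h2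
          refine h2'.trans (mul_le_mul_of_nonneg_right ?_ (Nat.cast_nonneg _))
          have h5 : ((2 * cst l Q : ℕ) : ℝ) ≤ 2 ^ (330 * l * Real.sqrt Q) :=
            le_trans (le_mul_of_one_le_right (Nat.cast_nonneg _)
              (htwo _ (by positivity))) hcst
          exact h5.trans (le_mul_of_one_le_right (by positivity) hP1')

end Pool.Agent.H36.LR
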