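import Mathlib

/-!
# Spectral vectors of a symmetric matrix, and eigenvalue counts through subspaces
-/

set_option autoImplicit false

namespace Pool.Agent.H36.LR

open Finset
open scoped RealInnerProductSpace Matrix

variable {W : Type} [Fintype W] [DecidableEq W]

/-- entries through the eigenbasis -/
theorem entry {N : Matrix W W ℝ} (hN : N.IsHermitian) (u v : W) :
    N u v = ∑ i, hN.eigenvalues i * (hN.eigenvectorBasis i u * hN.eigenvectorBasis i v) := by
  have h := hN.spectral_theorem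
  have h2 : N u v = (Unitary.conjStarAlgAut ℝ _ hN.eigenvectorUnitary
      (Matrix.diagonal (RCLike.ofReal ∘ hN.eigenvalues))) u v := by
    rw [← h]
  rw [h2, Unitary.conjStarAlgAut_apply, Matrix.mul_apply]
  refine sum_congr rfl fun i _ => ?_
  rw [Matrix.mul_diagonal, Matrix.IsHermitian.eigenvectorUnitary_apply]
  have h3 : (star (hN.eigenvectorUnitary : Matrix W W ℝ)) i v = hN.eigenvectorBasis i v := by
    rw [Matrix.star_apply, Matrix.IsHermitian.eigenvectorUnitary_apply]
    simp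
  refine (congrArg (fun t => hN.eigenvectorBasis i u * (RCLike.ofReal ∘ hN.eigenvalues) i * t)
    h3).trans ?_
  simp only [Function.comp_apply, RCLike.ofReal_real_eq_id, id_eq]
  ring

theorem orth {N : Matrix W W ℝ} (hN : N.IsHermitian) (i j : W) :
    ∑ u, hN.eigenvectorBasis i u * hN.eigenvectorBasis j u = if i = j then 1 else 0 := by
  have h := orthonormal_iff_ite.1 hN.eigenvectorBasis.orthonormal i j
  rw [← h, PiLp.inner_apply]
  refine sum_congr rfl fun u _ => ?_
  simp [mul_comm]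

theorem parseval {N : Matrix W W ℝ} (hN : N.IsHermitian) (v : W → ℝ) :
    ∑ i, (∑ u, hN.eigenvectorBasis i u * v u) ^ 2 = ∑ u, v u ^ 2 := by
  have h := hN.eigenvectorBasis.sum_sq_norm_inner_right (WithLp.toLp 2 v)
  rw [EuclideanSpace.real_norm_sq_eq] at h
  rw [← h]
  refine sum_congr rfl fun i _ => ?_
  rw [Real.norm_eq_abs, sq_abs, PiLp.inner_apply]
  congr 1
  refine sum_congr rfl fun u _ => ?_
  simp [mul_comm]

theorem quad {N : Matrix W W ℝ} (hN : N.IsHermitian) (v : W → ℝ) :
    ∑ x, ∑ y, v x * v y * N x y =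
      ∑ i, hN.eigenvalues i * (∑ u, hN.eigenvectorBasis i u * v u) ^ 2 := by
  have h1 : ∀ x y, v x * v y * N x y = ∑ i, hN.eigenvalues i *
      ((hN.eigenvectorBasis i x * v x) * (hN.eigenvectorBasis i y * v y)) := by
    intro x y
    rw [entry hN x y, mul_sum]
    exact sum_congr rfl fun i _ => by ring
  simp_rw [h1]
  have h2 : ∀ x, ∑ y, ∑ i, hN.eigenvalues i *
      ((hN.eigenvectorBasis i x * v x) * (hN.eigenvectorBasis i y * v y)) =
      ∑ i, ∑ y, hN.eigenvalues i *
      ((hN.eigenvectorBasis i x * v x) * (hN.eigenvectorBasis i y * v y)) := fun x => sum_comm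
  simp_rw [h2]
  rw [sum_comm]
  refine sum_congr rfl fun i _ => ?_
  rw [sq, sum_mul_sum, mul_sum]
  refine sum_congr rfl fun x _ => ?_
  rw [mul_sum]

theorem sum_sq_eig {N : Matrix W W ℝ} (hN : N.IsHermitian) :
    ∑ i, hN.eigenvalues i ^ 2 = ∑ u, ∑ v, N u v ^ 2 := by
  have h1 : ∀ u, ∑ v, N u v ^ 2 = ∑ i, (hN.eigenvalues i * hN.eigenvectorBasis i u) ^ 2 := by
    intro u
    rw [← parseval hN (fun v => N u v)]
    refine sum_congr rfl fun i _ => ?_
    congr 1
    have h2 := congrFun (hN.mulVec_eigenvectorBasis i) u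
    rw [Matrix.mulVec, dotProduct] at h2
    simp only [Pi.smul_apply, smul_eq_mul] at h2
    rw [← h2]
    exact sum_congr rfl fun v _ => mul_comm _ _
  simp_rw [h1]
  rw [sum_comm]
  refine sum_congr rfl fun i _ => ?_
  simp_rw [mul_pow]
  rw [← mul_sum]
  have h3 := orth hN i i
  rw [if_pos rfl] at h3
  have h4 : ∑ u, hN.eigenvectorBasis i u ^ 2 = 1 := by
    rw [← h3]
    exact sum_congr rfl fun u _ => sq _
  rw [h4, mul_one]

/-- the sum of the absolute values of the eigenvalues -/
theorem sum_abs {N : Matrix W W ℝ} (hN : N.IsHermitian) (htr : N.trace = 0)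
    (h1 : ∀ u v, |N u v| ≤ 1) {μ : ℝ} (hμ : 0 ≤ μ) {q r : ℕ}
    (hq : (univ.filter (fun i => μ < hN.eigenvalues i)).card ≤ q) (hr : N.rank ≤ r) :
    ∑ i, |hN.eigenvalues i| ≤ 2 * (Real.sqrt q * Fintype.card W + μ * r) := by
  have e1 : ∑ i, hN.eigenvalues i = 0 := by
    have := hN.trace_eq_sum_eigenvalues
    rw [htr] at this
    exact this.symm
  have e2 : ∑ i, |hN.eigenvalues i| = 2 * ∑ i, max (hN.eigenvalues i) 0 := by
    have : ∀ i, |hN.eigenvalues i| = 2 * max (hN.eigenvalues i) 0 - hN.eigenvalues i := by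
      intro i
      rcases le_total 0 (hN.eigenvalues i) with h | h
      · rw [abs_of_nonneg h, max_eq_left h]; ring
      · rw [abs_of_nonpos h, max_eq_right h]; ring
    simp_rw [this]
    rw [sum_sub_distrib, e1, sub_zero, mul_sum]
  rw [e2]
  refine mul_le_mul_of_nonneg_left ?_ (by norm_num)
  -- split the positive part
  have e3 : ∀ i, max (hN.eigenvalues i) 0 ≤
      (if μ < hN.eigenvalues i then |hN.eigenvalues i| else 0) +
      (if hN.eigenvalues i ≠ 0 then μ else 0) := by
    intro i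
    by_cases h : μ < hN.eigenvalues i
    · rw [if_pos h]
      have h0 : 0 < hN.eigenvalues i := lt_of_le_of_lt hμ h
      rw [if_pos h0.ne', abs_of_pos h0, max_eq_left h0.le]
      linarith
    · rw [if_neg h, zero_add]
      by_cases h0 : hN.eigenvalues i = 0
      · rw [h0]; simp
      · rw [if_pos h0]
        exact max_le (not_lt.1 h) hμ
  refine (sum_le_sum fun i _ => e3 i).trans ?_
  rw [sum_add_distrib]
  refine add_le_add ?_ ?_
  · rw [← sum_filter]
    have c2 : (∑ i ∈ univ.filter (fun i => μ < hN.eigenvalues i), |hN.eigenvalues i|) ^ 2 ≤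
        (univ.filter (fun i => μ < hN.eigenvalues i)).card *
        ∑ i ∈ univ.filter (fun i => μ < hN.eigenvalues i), |hN.eigenvalues i| ^ 2 :=
      sq_sum_le_card_mul_sum_sq
    have c3 : ∑ i ∈ univ.filter (fun i => μ < hN.eigenvalues i), |hN.eigenvalues i| ^ 2 ≤
        (Fintype.card W : ℝ) ^ 2 := by
      calc ∑ i ∈ univ.filter (fun i => μ < hN.eigenvalues i), |hN.eigenvalues i| ^ 2
          ≤ ∑ i, |hN.eigenvalues i| ^ 2 :=
            sum_le_sum_of_subset_of_nonneg (filter_subset _ _) fun _ _ _ => sq_nonneg _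
        _ = ∑ u, ∑ v, N u v ^ 2 := by
            rw [← sum_sq_eig hN]
            exact sum_congr rfl fun i _ => sq_abs _
        _ ≤ ∑ _u : W, ∑ _v : W, (1 : ℝ) := by
            refine sum_le_sum fun u _ => sum_le_sum fun v _ => ?_
            rw [← sq_abs]
            exact pow_le_one₀ (abs_nonneg _) (h1 u v)
        _ = (Fintype.card W : ℝ) ^ 2 := by
            simp [sq]
    have c4 : ((univ.filter (fun i => μ < hN.eigenvalues i)).card : ℝ) ≤ q := by
      exact_mod_cast hq
    have c5 : (∑ i ∈ univ.filter (fun i => μ < hN.eigenvalues i), |hN.eigenvalues i|) ^ 2 ≤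
        (Real.sqrt q * Fintype.card W) ^ 2 := by
      rw [mul_pow, Real.sq_sqrt (Nat.cast_nonneg q)]
      exact c2.trans (mul_le_mul c4 c3 (sum_nonneg fun _ _ => sq_nonneg _) (Nat.cast_nonneg q))
    exact (sq_le_sq₀ (sum_nonneg fun _ _ => abs_nonneg _)
      (mul_nonneg (Real.sqrt_nonneg _) (Nat.cast_nonneg _))).1 c5
  · rw [← sum_filter, sum_const, nsmul_eq_mul, mul_comm]
    refine mul_le_mul_of_nonneg_left ?_ hμ
    have h5 := hN.rank_eq_card_non_zero_eigs
    rw [Fintype.card_subtype] at h5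
    rw [← h5]
    exact_mod_cast hr

/-- spectral vectors -/
theorem spec_vectors {N : Matrix W W ℝ} (hN : N.IsHermitian) (htr : N.trace = 0)
    (h1 : ∀ u v, |N u v| ≤ 1) {μ : ℝ} (hμ : 0 ≤ μ) {q r : ℕ}
    (hq : (univ.filter (fun i => μ < hN.eigenvalues i)).card ≤ q) (hr : N.rank ≤ r) :
    ∃ z w : W → EuclideanSpace ℝ W, (∀ u v, ⟪z u, w v⟫ = N u v) ∧ (∀ u, ‖w u‖ ^ 2 = ‖z u‖ ^ 2) ∧
      ∑ u, ‖z u‖ ^ 2 ≤ 2 * (Real.sqrt q * Fintype.card W + μ * r) := by
  refine ⟨fun u => WithLp.toLp 2 fun i => Real.sqrt |hN.eigenvalues i| * hN.eigenvectorBasis i u,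
    fun u => WithLp.toLp 2 fun i => (SignType.sign (hN.eigenvalues i) : ℝ) *
      (Real.sqrt |hN.eigenvalues i| * hN.eigenvectorBasis i u), fun u v => ?_, fun u => ?_, ?_⟩
  · rw [PiLp.inner_apply, entry hN u v]
    refine sum_congr rfl fun i _ => ?_
    simp only [RCLike.inner_apply, conj_trivial]
    have e := Real.mul_self_sqrt (abs_nonneg (hN.eigenvalues i))
    have e2 := sign_mul_abs (hN.eigenvalues i)
    calc _ = ((SignType.sign (hN.eigenvalues i) : ℝ) *
        (Real.sqrt |hN.eigenvalues i| * Real.sqrt |hN.eigenvalues i|)) *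
        (hN.eigenvectorBasis i u * hN.eigenvectorBasis i v) := by ring
      _ = _ := by rw [e, e2]
  · rw [EuclideanSpace.real_norm_sq_eq, EuclideanSpace.real_norm_sq_eq]
    refine sum_congr rfl fun i _ => ?_
    simp only
    rcases lt_trichotomy (hN.eigenvalues i) 0 with h | h | h
    · rw [sign_neg h]; simp
    · rw [h]; simp
    · rw [sign_pos h]; simp
  · refine le_trans (le_of_eq ?_) (sum_abs hN htr h1 hμ hq hr)
    have e1 : ∀ u : W, ‖(WithLp.toLp 2 fun i => Real.sqrt |hN.eigenvalues i| *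
        hN.eigenvectorBasis i u : EuclideanSpace ℝ W)‖ ^ 2 =
        ∑ i, |hN.eigenvalues i| * hN.eigenvectorBasis i u ^ 2 := by
      intro u
      rw [EuclideanSpace.real_norm_sq_eq]
      refine sum_congr rfl fun i _ => ?_
      simp only
      rw [mul_pow, Real.sq_sqrt (abs_nonneg _)]
    simp_rw [e1]
    rw [sum_comm]
    refine sum_congr rfl fun i _ => ?_
    rw [← mul_sum]
    have h3 := orth hN i i
    rw [if_pos rfl] at h3
    have h4 : ∑ u, hN.eigenvectorBasis i u ^ 2 = 1 := by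
      rw [← h3]
      exact sum_congr rfl fun u _ => sq _
    rw [h4, mul_one]

end Pool.Agent.H36.LR
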